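import Pool.Agent.W533.LP.Stm
import Pool.Agent.W533.LP.Stm3

set_option autoImplicit false

namespace Pool.Agent.W576.LP

open MeasureTheory ProbabilityTheory Pool.Agent.W533.LP

/-- a single geometric variable is integrable -/
lemma int_of_fam {Ω ι : Type} [MeasurableSpace Ω] {μ : Measure Ω} {p : ι → ℝ} {X : ι → Ω → ℕ}
    (hM : PMom) (h : GeoFam μ p X) (i : ι) : Integrable (fun ω => (X i ω : ℝ)) μ := by
  haveI := h.prob
  obtain ⟨C, hC, hM'⟩ := hM (p i) (h.pos i).2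
  have h1 : GeoFam μ (fun _ : Fin 1 => p i) (fun _ : Fin 1 => X i) := by
    refine ⟨h.prob, fun _ => h.pos i, fun _ => h.meas i, ?_, fun _ k => h.law i k⟩
    exact h.indep.precomp (g := fun _ : Fin 1 => i) (Function.injective_of_subsingleton _)
  have h2 := (hM' μ (p i) 1 (fun _ => X i) le_rfl h1).1
  have h3 : MemLp (fun ω => (X i ω : ℝ)) 4 μ := by
    simpa using h2
  exact h3.integrable (by norm_num)

lemma var_eq {Ω Ω' : Type} [MeasurableSpace Ω] [MeasurableSpace Ω'] (hA : AMeas) (hL : ALaw)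
    (μ : Measure Ω) (μ' : Measure Ω') (q a : ℝ) (I J : ℕ → Ω → ℕ) (W : ℕ → ℕ → Ω → ℕ)
    (I' J' : ℕ → Ω' → ℕ) (W' : ℕ → ℕ → Ω' → ℕ) (h : Sys0 μ q a I J W)
    (h' : Sys0 μ' q a I' J' W') (m n : ℕ) :
    variance (fun ω => (Gr I J W m n ω : ℝ)) μ = variance (fun ω => (Gr I' J' W' m n ω : ℝ)) μ' := by
  have hF : Measurable (fun z : (ℕ → ℕ) × (ℕ → ℕ) × (ℕ → ℕ → ℕ) × (Empty → ℕ) =>
      ((G z.1 z.2.1 z.2.2.1 m n : ℕ) : ℝ)) := by
    have h1 : Measurable (fun z : (ℕ → ℕ) × (ℕ → ℕ) × (ℕ → ℕ → ℕ) × (Empty → ℕ) =>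
        ((z.1, z.2.1, z.2.2.1) : (ℕ → ℕ) × (ℕ → ℕ) × (ℕ → ℕ → ℕ))) := by fun_prop
    have h2 := (hA.1 m n).comp h1
    exact measurable_from_top.comp h2
  exact (hL μ μ' q a I J W I' J' W' _ _ _ h h' _ hF).variance_eq

lemma setInt_mono {Ω : Type} [MeasurableSpace Ω] {μ : Measure Ω} [IsProbabilityMeasure μ]
    {f g : Ω → ℕ} (hg : Integrable (fun ω => (g ω : ℝ)) μ) (hfg : ∀ ω, f ω ≤ g ω)
    (hf : Measurable f)
    {S T : Set Ω} (hST : S ⊆ T) :
    ∫ ω in S, ((f ω : ℝ) + 1) ∂μ ≤ ∫ ω in T, ((g ω : ℝ) + 1) ∂μ := by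
  have hg1 : Integrable (fun ω => (g ω : ℝ) + 1) μ := hg.add (integrable_const 1)
  have hf1 : Integrable (fun ω => (f ω : ℝ) + 1) μ := by
    refine hg1.mono' ?_ ?_
    · exact ((measurable_from_top.comp hf).add measurable_const).aestronglyMeasurable
    · refine Filter.Eventually.of_forall (fun ω => ?_)
      rw [Real.norm_of_nonneg (by positivity)]
      have : (f ω : ℝ) ≤ g ω := by exact_mod_cast hfg ω
      linarith
  calc ∫ ω in S, ((f ω : ℝ) + 1) ∂μ ≤ ∫ ω in T, ((f ω : ℝ) + 1) ∂μ := by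
        apply setIntegral_mono_set hf1.integrableOn
        · exact Filter.Eventually.of_forall (fun ω => by
            show (0 : ℝ) ≤ (f ω : ℝ) + 1
            positivity)
        · exact Filter.Eventually.of_forall hST
    _ ≤ ∫ ω in T, ((g ω : ℝ) + 1) ∂μ := by
        apply integral_mono hf1.integrableOn hg1.integrableOn
        intro ω
        have : (f ω : ℝ) ≤ g ω := by exact_mod_cast hfg ω
        show (f ω : ℝ) + 1 ≤ (g ω : ℝ) + 1
        linarith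

lemma mean_mono {a a' : ℝ} (h : a' ≤ a) (h1 : a < 1) : mean a' ≤ mean a := by
  unfold mean
  rw [div_le_div_iff₀ (by linarith) (by linarith)]
  nlinarith

lemma mean_nonneg {a : ℝ} (h : 0 ≤ a) (h1 : a < 1) : 0 ≤ mean a := by
  unfold mean
  exact div_nonneg h (by linarith)

lemma setInt_nonneg {Ω : Type} [MeasurableSpace Ω] {μ : Measure Ω} (f : Ω → ℕ) (S : Set Ω) :
    0 ≤ ∫ ω in S, ((f ω : ℝ) + 1) ∂μ :=
  integral_nonneg (fun ω => by
    show (0 : ℝ) ≤ (f ω : ℝ) + 1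
    positivity)

theorem pVarCmp (hV : PVarId) (hC : PCouple) (hL : ALaw) (hS : DSlopeMono) (hT : DTransp)
    (hA : AMeas) (hM : PMom) : PVarCmp := by
  intro Ω Ω' _ _ μ μ' q a a' I J W I' J' W' hq hqa ha hqa' ha' hsys hsys' m n
  have ha0 : 0 < a := hq.trans hqa
  have ha0' : 0 < a' := hq.trans hqa'
  rcases le_total a' a with h | h
  · obtain ⟨Ω0, _, μ0, I1, J1, I0, J0, W0, hs1, hs0, hle⟩ := hC q a' a hq hqa' h ha
    haveI : IsProbabilityMeasure μ0 := hs0.prob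
    rw [var_eq hA hL μ μ0 q a I J W I0 J0 W0 hsys hs0 m n,
      var_eq hA hL μ' μ0 q a' I' J' W' I1 J1 W0 hsys' hs1 m n]
    rw [(hV μ0 q a' I1 J1 W0 hq hqa' ha' hs1 m n).2.2.1,
      (hV μ0 q a I0 J0 W0 hq hqa ha hs0 m n).2.2.1]
    have hsub : ∀ i, Hs I1 J1 W0 i m n ⊆ Hs I0 J0 W0 i m n := by
      intro i ω hω
      exact hS (fun i => I1 i ω) (fun i => I0 i ω) (fun i => J1 i ω) (fun i => J0 i ω)
        (fun i j => W0 i j ω) i m n (fun i => (hle i ω).1) (fun j => (hle j ω).2) hω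
    have hint : ∀ i, Integrable (fun ω => (I0 i ω : ℝ)) μ0 := fun i =>
      int_of_fam hM hs0 (Sum.inl i)
    have hmeas : ∀ i, Measurable (I1 i) := fun i => hs1.meas (Sum.inl i)
    have hsum : ∑ i ∈ Finset.range m, ∫ ω in Hs I1 J1 W0 i m n, ((I1 i ω : ℝ) + 1) ∂μ0 ≤
        ∑ i ∈ Finset.range m, ∫ ω in Hs I0 J0 W0 i m n, ((I0 i ω : ℝ) + 1) ∂μ0 := by
      apply Finset.sum_le_sum
      intro i _
      exact setInt_mono (hint i) (fun ω => (hle i ω).1) (hmeas i) (hsub i)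
    have hsum0 : 0 ≤ ∑ i ∈ Finset.range m, ∫ ω in Hs I0 J0 W0 i m n, ((I0 i ω : ℝ) + 1) ∂μ0 :=
      Finset.sum_nonneg (fun i _ => setInt_nonneg _ _)
    have hmul : mean a' * ∑ i ∈ Finset.range m, ∫ ω in Hs I1 J1 W0 i m n, ((I1 i ω : ℝ) + 1) ∂μ0 ≤
        mean a * ∑ i ∈ Finset.range m, ∫ ω in Hs I0 J0 W0 i m n, ((I0 i ω : ℝ) + 1) ∂μ0 :=
      le_trans (mul_le_mul_of_nonneg_left hsum (mean_nonneg ha0'.le ha'))
        (mul_le_mul_of_nonneg_right (mean_mono h ha) hsum0)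
    have e1 : (m : ℝ) * (vari a - vari a') ≤ m * |vari a' - vari a| := by
      apply mul_le_mul_of_nonneg_left _ (Nat.cast_nonneg m)
      rw [abs_sub_comm]
      exact le_abs_self _
    have e2 : (n : ℝ) * (vari (q / a') - vari (q / a)) ≤ n * |vari (q / a') - vari (q / a)| :=
      mul_le_mul_of_nonneg_left (le_abs_self _) (Nat.cast_nonneg n)
    nlinarith [hmul, e1, e2]
  · obtain ⟨Ω0, _, μ0, I0, J0, I1, J1, W0, hs0, hs1, hle⟩ := hC q a a' hq hqa h ha'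
    haveI : IsProbabilityMeasure μ0 := hs0.prob
    rw [var_eq hA hL μ μ0 q a I J W I0 J0 W0 hsys hs0 m n,
      var_eq hA hL μ' μ0 q a' I' J' W' I1 J1 W0 hsys' hs1 m n]
    rw [(hV μ0 q a' I1 J1 W0 hq hqa' ha' hs1 m n).2.2.2,
      (hV μ0 q a I0 J0 W0 hq hqa ha hs0 m n).2.2.2]
    have hsub : ∀ i, Vs I1 J1 W0 i m n ⊆ Vs I0 J0 W0 i m n := by
      intro i ω hω
      have hω' : G (fun i => I1 i ω) (bump (fun j => J1 j ω) i 1) (fun i j => W0 i j ω) m n
        = G (fun i => I1 i ω) (fun j => J1 j ω) (fun i j => W0 i j ω) m n + 1 := hω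
      show G (fun i => I0 i ω) (bump (fun j => J0 j ω) i 1) (fun i j => W0 i j ω) m n
        = G (fun i => I0 i ω) (fun j => J0 j ω) (fun i j => W0 i j ω) m n + 1
      rw [hT, hT (fun i => I0 i ω) (fun j => J0 j ω)]
      rw [hT, hT (fun i => I1 i ω) (fun j => J1 j ω)] at hω'
      exact hS (fun i => J1 i ω) (fun i => J0 i ω) (fun i => I1 i ω) (fun i => I0 i ω)
        (fun i j => W0 j i ω) i n m (fun i => (hle i ω).2) (fun j => (hle j ω).1) hω'
    have hint : ∀ i, Integrable (fun ω => (J0 i ω : ℝ)) μ0 := fun i =>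
      int_of_fam hM hs0 (Sum.inr (Sum.inl i))
    have hmeas : ∀ i, Measurable (J1 i) := fun i => hs1.meas (Sum.inr (Sum.inl i))
    have hsum : ∑ i ∈ Finset.range n, ∫ ω in Vs I1 J1 W0 i m n, ((J1 i ω : ℝ) + 1) ∂μ0 ≤
        ∑ i ∈ Finset.range n, ∫ ω in Vs I0 J0 W0 i m n, ((J0 i ω : ℝ) + 1) ∂μ0 := by
      apply Finset.sum_le_sum
      intro i _
      exact setInt_mono (hint i) (fun ω => (hle i ω).2) (hmeas i) (hsub i)
    have hsum0 : 0 ≤ ∑ i ∈ Finset.range n, ∫ ω in Vs I0 J0 W0 i m n, ((J0 i ω : ℝ) + 1) ∂μ0 :=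
      Finset.sum_nonneg (fun i _ => setInt_nonneg _ _)
    have hqa1 : q / a < 1 := by rw [div_lt_one ha0]; exact hqa
    have hqa1' : q / a' < 1 := by rw [div_lt_one ha0']; exact hqa'
    have hqle : q / a' ≤ q / a := div_le_div_of_nonneg_left hq.le ha0 h
    have hmul : mean (q / a') * ∑ i ∈ Finset.range n,
          ∫ ω in Vs I1 J1 W0 i m n, ((J1 i ω : ℝ) + 1) ∂μ0 ≤
        mean (q / a) * ∑ i ∈ Finset.range n,
          ∫ ω in Vs I0 J0 W0 i m n, ((J0 i ω : ℝ) + 1) ∂μ0 :=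
      le_trans (mul_le_mul_of_nonneg_left hsum (mean_nonneg (by positivity) hqa1'))
        (mul_le_mul_of_nonneg_right (mean_mono hqle hqa1) hsum0)
    have e1 : (m : ℝ) * (vari a' - vari a) ≤ m * |vari a' - vari a| :=
      mul_le_mul_of_nonneg_left (le_abs_self _) (Nat.cast_nonneg m)
    have e2 : (n : ℝ) * (vari (q / a) - vari (q / a')) ≤ n * |vari (q / a') - vari (q / a)| := by
      apply mul_le_mul_of_nonneg_left _ (Nat.cast_nonneg n)
      rw [abs_sub_comm]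
      exact le_abs_self _
    nlinarith [hmul, e1, e2]

end Pool.Agent.W576.LP
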